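import Pool.Agent.H6.GB.Bounded
import Pool.Agent.H6.GB.Lower

/-!
# Running times of cliques with pendant edges, and all failures of the dichotomy among them

`copies`, `step`, `tau`, `M`, `plus` (in `Pool/Agent/H6/GB/Basic.lean`) are the notions of the problem:
copies of `H` in `G`, one round of the `H`-process, the running time `τ_H(G)`, the maximum running time
`M_H(n)`, and the graph `H^{u+}`.

Let `k ≥ 3`, `m ≥ 1` and let `H` be the complete graph `K_k` with `m` pendant edges attached at its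
vertex `u`.  The maximum running time of `H` is at most `(k - 3) (2 m + 1) + 3` if `k ≤ 5` or `m ≤ 4`,
and it is of the order of `n` otherwise.  So the dichotomy of the question fails for `H` and `u` exactly
if `k ≥ 6` and `m = 4`.
-/

set_option autoImplicit false

namespace Pool.Agent.Results.MP_7332c2_co.CliquePendants

open Filter Pool.Agent.H6.GB

/-- `H` is the complete graph on a set `K` of `k` vertices together with `m` pendant edges, all of them
attached at the vertex `u` of `K`. -/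
def IsCliquePendants (k m : ℕ) {V : Type} [Fintype V] (H : SimpleGraph V) (u : V) : Prop :=
  ∃ K : Finset V, u ∈ K ∧ K.card = k ∧ Fintype.card V = k + m ∧
    ∀ a b, H.Adj a b ↔ a ≠ b ∧ (a = u ∨ b = u ∨ (a ∈ K ∧ b ∈ K))

/-- The alternative of the question: `M_{H^{u+}}(n) = O(1)`, or `M_{H^{u+}}(n)` and `M_H(n)` agree up to
constant factors for all large `n`. -/
def Dichotomy {V : Type} (H : SimpleGraph V) (u : V) : Prop :=
  (∃ B : ℕ, ∀ᶠ n in atTop, M (plus H u) n ≤ B) ∨
    ∃ c C : ℝ, 0 < c ∧ c ≤ C ∧ ∀ᶠ n : ℕ in atTop,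
      c * (M H n : ℝ) ≤ (M (plus H u) n : ℝ) ∧ (M (plus H u) n : ℝ) ≤ C * (M H n : ℝ)

theorem exists_graph (k m : ℕ) (hk : 1 ≤ k) :
    ∃ (V : Type) (_ : Fintype V) (H : SimpleGraph V) (u : V), IsCliquePendants k m H u := by
  classical
  refine ⟨Fin (k + m), inferInstance,
    { Adj := fun a b => a ≠ b ∧ (a.val = 0 ∨ b.val = 0 ∨ (a.val < k ∧ b.val < k))
      symm := ⟨fun a b h => ⟨h.1.symm, by have := h.2; tauto⟩⟩
      loopless := ⟨fun a h => h.1 rfl⟩ }, ⟨0, by omega⟩,
    (Finset.range k).attachFin (fun i hi => by rw [Finset.mem_range] at hi; omega), ?_, ?_, ?_, ?_⟩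
  · rw [Finset.mem_attachFin, Finset.mem_range]; exact hk
  · rw [Finset.card_attachFin, Finset.card_range]
  · rw [Fintype.card_fin]
  · intro a b
    simp only [Finset.mem_attachFin, Finset.mem_range, Fin.ext_iff]

theorem frequently_lt {f : ℕ → ℕ} {k N : ℕ} (h : ∀ n, N ≤ n → (n + 3 - k) / 3 ≤ f n) (C : ℝ) :
    ∀ᶠ n : ℕ in atTop, C < (f n : ℝ) := by
  obtain ⟨B, hB⟩ := exists_nat_gt C
  filter_upwards [eventually_ge_atTop (N + 3 * B + k)] with n hn
  have h1 := h n (by omega)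
  have h2 : B ≤ f n := by omega
  have h3 : (B : ℝ) ≤ (f n : ℝ) := by exact_mod_cast h2
  linarith

theorem not_dichotomy {V : Type} [Fintype V] {H : SimpleGraph V} {u : V} {k : ℕ} (hk : 6 ≤ k)
    (h : IsCliquePendants k 4 H u) : ¬ Dichotomy H u := by
  obtain ⟨K, h⟩ := h
  have h : Str k 4 H u K := h
  have hlow := fun n => M_ge_linear h.plus hk (n := n) (by norm_num)
  have hup := M_bounded h (by omega) (by norm_num) (Or.inr le_rfl)
  rintro (⟨B, hB⟩ | ⟨c, C, hc, hcC, hB⟩)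
  · obtain ⟨n, h1, h2⟩ := (hB.and (frequently_lt (N := k + (4 + 1)) hlow B)).exists
    have h3 : (B : ℝ) < (M (plus H u) n : ℝ) := h2
    have h4 : B < M (plus H u) n := by exact_mod_cast h3
    omega
  · obtain ⟨n, h1, h2⟩ := (hB.and (frequently_lt (N := k + (4 + 1)) hlow
      (C * ((k - 3) * (2 * 4 + 1) + 3 : ℕ)))).exists
    have h3 : (M H n : ℝ) ≤ ((k - 3) * (2 * 4 + 1) + 3 : ℕ) := by exact_mod_cast hup n
    have h4 := mul_le_mul_of_nonneg_left h3 (hc.le.trans hcC)
    linarith [h1.2]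

theorem dichotomy {V : Type} [Fintype V] {H : SimpleGraph V} {u : V} {k m : ℕ} (hk : 3 ≤ k)
    (hm : 1 ≤ m) (h : IsCliquePendants k m H u) (hne : ¬ (6 ≤ k ∧ m = 4)) : Dichotomy H u := by
  obtain ⟨K, h⟩ := h
  have h : Str k m H u K := h
  by_cases hc : k ≤ 5 ∨ m + 1 ≤ 4
  · exact Or.inl ⟨_, Eventually.of_forall (M_bounded h.plus hk (by omega) hc)⟩
  push Not at hc
  have hk6 : 6 ≤ k := by omega
  have hm5 : 5 ≤ m := by omega
  refine Or.inr ⟨1 / (6 * (2 * (k + m) + 1)), 6 * (2 * (k + m) + 1), by positivity, ?_, ?_⟩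
  · rw [div_le_iff₀ (by positivity)]
    have : (1 : ℝ) ≤ 6 * (2 * (k + m) + 1) := by
      have : (0 : ℝ) ≤ k + m := by positivity
      linarith
    nlinarith
  filter_upwards [eventually_ge_atTop (2 * (k + m + 1))] with n hn
  have a1 := M_le_linear h hm n
  have a2 := M_le_linear h.plus (by omega) n
  have b1 := M_ge_linear h hk6 hm5 (n := n) (by omega)
  have b2 := M_ge_linear h.plus hk6 (by omega) (n := n) (by omega)
  have c1 : n ≤ 6 * M H n := by omega
  have c2 : n ≤ 6 * M (plus H u) n := by omega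
  have d1 : (n : ℝ) ≤ 6 * (M H n : ℝ) := by exact_mod_cast c1
  have d2 : (n : ℝ) ≤ 6 * (M (plus H u) n : ℝ) := by exact_mod_cast c2
  have hn1 : (1 : ℝ) ≤ n := by
    have : 1 ≤ n := by omega
    exact_mod_cast this
  have e1 : (M H n : ℝ) ≤ (2 * (k + m) + 1) * n := by
    have h1 : M H n ≤ 2 * (k + m) * n + 1 := a1.trans (by
      have : 2 * (k + m - 1) * n ≤ 2 * (k + m) * n := Nat.mul_le_mul_right _ (by omega)
      omega)
    have h2 : (M H n : ℝ) ≤ 2 * (k + m) * n + 1 := by exact_mod_cast h1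
    linarith
  have e2 : (M (plus H u) n : ℝ) ≤ (2 * (k + m) + 1) * n := by
    have h1 : M (plus H u) n ≤ 2 * (k + m) * n + 1 := a2.trans (by
      have : 2 * (k + (m + 1) - 1) * n ≤ 2 * (k + m) * n := Nat.mul_le_mul_right _ (by omega)
      omega)
    have h2 : (M (plus H u) n : ℝ) ≤ 2 * (k + m) * n + 1 := by exact_mod_cast h1
    linarith
  have hpos : (0 : ℝ) < 2 * (k + m) + 1 := by positivity
  constructor
  · rw [one_div, inv_mul_le_iff₀ (by positivity)]
    calc (M H n : ℝ) ≤ (2 * (k + m) + 1) * n := e1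
      _ ≤ (2 * (k + m) + 1) * (6 * (M (plus H u) n : ℝ)) := mul_le_mul_of_nonneg_left d2 hpos.le
      _ = 6 * (2 * (k + m) + 1) * (M (plus H u) n : ℝ) := by ring
  · calc (M (plus H u) n : ℝ) ≤ (2 * (k + m) + 1) * n := e2
      _ ≤ (2 * (k + m) + 1) * (6 * (M H n : ℝ)) := mul_le_mul_of_nonneg_left d1 hpos.le
      _ = 6 * (2 * (k + m) + 1) * (M H n : ℝ) := by ring

/-- **The running times of the cliques with pendant edges.**
1. The dichotomy of the question is false for connected graphs.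
2. Let `k ≥ 3`, `m ≥ 1` and let `H` be `K_k` with `m` pendant edges attached at `u`.  Then `H` is
connected, `H^{u+}` is `K_k` with `m + 1` pendant edges, `M_H(n) ≤ 2 (k + m - 1) n + 1` for all `n`;
`M_H` is bounded if and only if `k ≤ 5` or `m ≤ 4`; in this case `M_H(n) ≤ (k - 3) (2 m + 1) + 3` for
all `n`, and in the other case `M_H(n) ≥ (n + 3 - k) / 3` for all `n ≥ k + m`; the dichotomy fails for
`H` and `u` if and only if `k ≥ 6` and `m = 4`.
3. Such graphs exist for all `k ≥ 1` and all `m`. -/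
theorem result :
    (¬ ∀ (V : Type) [Fintype V] (H : SimpleGraph V) (u : V), H.Connected → Dichotomy H u) ∧
    (∀ (k m : ℕ), 3 ≤ k → 1 ≤ m → ∀ (V : Type) [Fintype V] (H : SimpleGraph V) (u : V),
      IsCliquePendants k m H u →
        H.Connected ∧ IsCliquePendants k (m + 1) (plus H u) (some u) ∧
        (∀ n, M H n ≤ 2 * (k + m - 1) * n + 1) ∧
        ((∃ B : ℕ, ∀ᶠ n in atTop, M H n ≤ B) ↔ (k ≤ 5 ∨ m ≤ 4)) ∧
        ((k ≤ 5 ∨ m ≤ 4) → ∀ n, M H n ≤ (k - 3) * (2 * m + 1) + 3) ∧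
        (6 ≤ k → 5 ≤ m → ∀ n, k + m ≤ n → (n + 3 - k) / 3 ≤ M H n) ∧
        (¬ Dichotomy H u ↔ (6 ≤ k ∧ m = 4))) ∧
    ∀ (k m : ℕ), 1 ≤ k → ∃ (V : Type) (_ : Fintype V) (H : SimpleGraph V) (u : V),
      IsCliquePendants k m H u := by
  refine ⟨?_, ?_, exists_graph⟩
  · intro hall
    obtain ⟨V, _, H, u, h⟩ := exists_graph 6 4 (by norm_num)
    refine not_dichotomy le_rfl h (hall V H u ?_)
    obtain ⟨K, h⟩ := h
    exact Str.conn (k := 6) (m := 4) (K := K) h
  · rintro k m hk hm V _ H u ⟨K, h⟩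
    have h : Str k m H u K := h
    refine ⟨h.conn, ⟨_, h.plus⟩, M_le_linear h hm, ⟨?_, fun hc => ?_⟩, M_bounded h hk hm,
      fun hk6 hm5 n hn => M_ge_linear h hk6 hm5 hn, ⟨fun hd => ?_, ?_⟩⟩
    · rintro ⟨B, hB⟩
      by_contra hc
      push Not at hc
      obtain ⟨n, h1, h2⟩ := (hB.and (frequently_lt (N := k + m)
        (fun n hn => M_ge_linear h (by omega) (by omega) (n := n) hn) B)).exists
      have h4 : B < M H n := by exact_mod_cast h2
      omega
    · exact ⟨_, Eventually.of_forall (M_bounded h hk hm hc)⟩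
    · by_contra hne
      exact hd (dichotomy hk hm ⟨K, h⟩ hne)
    · rintro ⟨hk6, rfl⟩
      exact not_dichotomy hk6 ⟨K, h⟩

end Pool.Agent.Results.MP_7332c2_co.CliquePendants
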